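import Mathlib

/-!
# Large non-separating independent sets in the duals of reduced link diagrams

The projection of a non-split link diagram with `n` crossings is a connected 4-valent plane graph.
It is given as a combinatorial map: the `4 n` strand ends are `(c, i)`, where `c` is a crossing and
`i : ZMod 4` the position in the counterclockwise order around `c`, and `other` maps a strand end
to the other end of the same strand.  The regions are the orbits of the face permutation, and the
map is plane if and only if there are `n + 2` of them (Euler's formula).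

The idea: choose a set `S` of regions no two of which meet at a common crossing.  Then `S` is
non-separating: among the four regions around a crossing at most one belongs to `S`, so the others
are connected in the dual graph without `S`, and neighbouring crossings have a common region
outside of `S`.  By Turán's theorem there is such a set with at least `(n + 2) / 13` members, since
there are `n + 2` regions and at most `6 n` pairs of regions that meet at a crossing.
-/

set_option autoImplicit false

namespace Pool.Agent.Results.MP_1d20a2_co.LinearNonSeparating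

/-- The strand ends of a 4-valent graph with vertex set `Fin n`: `(c, i)` is the `i`-th strand end
at the crossing `c`, in counterclockwise order. -/
abbrev End (n : ℕ) : Type := Fin n × ZMod 4

/-- The strand end that precedes a strand end in the counterclockwise order around its crossing. -/
def prev {n : ℕ} (d : End n) : End n := (d.1, d.2 - 1)

/-- The face permutation: walk along the strand that starts with `d` to its other end, and there
turn to the next strand of the region on the left side. -/
def faceStep {n : ℕ} (other : End n → End n) (h : ∀ d, other (other d) = d) :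
    Equiv.Perm (End n) where
  toFun d := prev (other d)
  invFun d := other (d.1, d.2 + 1)
  left_inv d := by simp [prev, h]
  right_inv d := by simp [prev, h]

/-- The projection of a non-split link diagram with `n` crossings: a connected 4-valent graph in
the plane (or sphere), as a combinatorial map. -/
structure Projection (n : ℕ) where
  /-- the other end of the strand -/
  other : End n → End n
  other_other : ∀ d, other (other d) = d
  other_ne : ∀ d, other d ≠ d
  /-- the graph is connected (the diagram is non-split) -/
  connected : ∀ c c' : Fin n,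
    Relation.ReflTransGen (fun a b => ∃ i j, other (a, i) = (b, j)) c c'
  /-- the map is plane: by Euler's formula there are `n + 2` regions -/
  plane : Nat.card (Quotient (Equiv.Perm.SameCycle.setoid (faceStep other other_other))) = n + 2

namespace Projection

variable {n : ℕ} (D : Projection n)

/-- The complementary regions of the diagram: the orbits of the face permutation. -/
def Region : Type :=
  Quotient (Equiv.Perm.SameCycle.setoid (faceStep D.other D.other_other))

/-- The region on the left side of the strand that starts with the strand end `(c, i)`; near the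
crossing `c` it is the corner between the `i`-th and the `(i+1)`-st strand end. -/
def region (d : End n) : D.Region := Quotient.mk _ d

/-- The dual graph: the regions on the two sides of a strand are joined by an edge. -/
def dual : SimpleGraph D.Region where
  Adj R R' := R ≠ R' ∧ ∃ d, D.region d = R ∧ D.region (D.other d) = R'
  symm := ⟨by
    rintro R R' ⟨h, d, h1, h2⟩
    exact ⟨h.symm, D.other d, h2, by rw [D.other_other, h1]⟩⟩
  loopless := ⟨fun R h => h.1 rfl⟩

/-- The diagram is reduced: no crossing is nugatory, that is, four different regions meet at each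
crossing. -/
def Reduced : Prop :=
  ∀ (c : Fin n) (i j : ZMod 4), i ≠ j → D.region (c, i) ≠ D.region (c, j)

/-- `S` is independent in the dual graph. -/
def Independent (S : Finset D.Region) : Prop :=
  ∀ R ∈ S, ∀ R' ∈ S, ¬ D.dual.Adj R R'

/-- `S` is non-separating: the dual graph without the vertices of `S` is connected. -/
def NonSeparating (S : Finset D.Region) : Prop :=
  (D.dual.induce {R | R ∉ S}).Connected

/-- Two regions meet at a common crossing. -/
def Meet (R R' : D.Region) : Prop :=
  ∃ (c : Fin n) (i j : ZMod 4), D.region (c, i) = R ∧ D.region (c, j) = R'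

lemma region_prev_other (d : End n) : D.region (prev (D.other d)) = D.region d := by
  apply Quotient.sound
  refine Equiv.Perm.SameCycle.symm ?_
  exact ⟨1, by simp [faceStep]⟩

/-- The two regions beside the `i`-th strand at `c`. -/
lemma region_other (c : Fin n) (i : ZMod 4) :
    D.region (D.other (c, i)) = D.region (c, i - 1) := by
  have h := D.region_prev_other (D.other (c, i))
  rw [D.other_other] at h
  exact h.symm

lemma ne_pred : ∀ i : ZMod 4, i ≠ i - 1 := by decide

lemma adj_side (hD : D.Reduced) (c : Fin n) (i : ZMod 4) :
    D.dual.Adj (D.region (c, i)) (D.region (c, i - 1)) := by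
  exact ⟨hD c i (i - 1) (ne_pred i), (c, i), rfl, D.region_other c i⟩

/-- All regions of `T` at the crossing `c` belong to the same component of the graph induced by
the complement of `S`. -/
lemma local_conn (hD : D.Reduced) (S : Finset D.Region)
    (hS : ∀ R ∈ S, ∀ R' ∈ S, D.Meet R R' → R = R') (c : Fin n) (i j : ZMod 4)
    (hi : D.region (c, i) ∉ S) (hj : D.region (c, j) ∉ S) :
    (D.dual.induce {R | R ∉ S}).Reachable ⟨D.region (c, i), hi⟩ ⟨D.region (c, j), hj⟩ := by
  have step : ∀ (k : ZMod 4) (h1 : D.region (c, k) ∉ S) (h2 : D.region (c, k - 1) ∉ S),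
      (D.dual.induce {R | R ∉ S}).Reachable ⟨D.region (c, k), h1⟩ ⟨D.region (c, k - 1), h2⟩ := by
    intro k h1 h2
    exact SimpleGraph.Adj.reachable (D.adj_side hD c k)
  -- at most one of the four regions belongs to `S`
  have one : ∀ k l : ZMod 4, k ≠ l → D.region (c, k) ∈ S → D.region (c, l) ∉ S := by
    intro k l hkl h1 h2
    exact hD c k l hkl (hS _ h1 _ h2 ⟨c, k, l, rfl, rfl⟩)
  by_cases hij : i = j
  · subst hij; exact SimpleGraph.Reachable.refl _
  -- go down from `k` to `l`
  have down : ∀ (m : ℕ) (k l : ZMod 4), k = l + m → (hk : D.region (c, k) ∉ S) →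
      (hl : D.region (c, l) ∉ S) → (∀ t : ℕ, t ≤ m → D.region (c, l + t) ∉ S) →
      (D.dual.induce {R | R ∉ S}).Reachable ⟨D.region (c, k), hk⟩ ⟨D.region (c, l), hl⟩ := by
    intro m
    induction m with
    | zero =>
      intro k l hkl hk hl _
      have : k = l := by rw [hkl]; simp
      subst this
      exact SimpleGraph.Reachable.refl _
    | succ m ih =>
      intro k l hkl hk hl h
      have h1 : D.region (c, k - 1) ∉ S := by
        have := h m (Nat.le_succ m)
        have e : k - 1 = l + m := by rw [hkl]; push_cast; ring
        rw [e]; exact this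
      refine (step k hk h1).trans ?_
      exact ih (k - 1) l (by rw [hkl]; push_cast; ring) h1 hl (fun t ht => h t (by omega))
  -- either all regions from `j` up to `i` or all regions from `i` up to `j` are outside of `S`
  by_cases hex : ∃ k, D.region (c, k) ∈ S
  · obtain ⟨k, hk⟩ := hex
    have hki : k ≠ i := by rintro rfl; exact hi hk
    have hkj : k ≠ j := by rintro rfl; exact hj hk
    have cases : (∃ m : ℕ, i = j + m ∧ ∀ t : ℕ, t ≤ m → j + (t : ZMod 4) ≠ k) ∨
        (∃ m : ℕ, j = i + m ∧ ∀ t : ℕ, t ≤ m → i + (t : ZMod 4) ≠ k) := by
      have key : ∀ i j k : ZMod 4, k ≠ i → k ≠ j →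
          (∃ m : Fin 4, i = j + (m : ℕ) ∧ ∀ t : Fin 4, t ≤ m → j + ((t : ℕ) : ZMod 4) ≠ k) ∨
          (∃ m : Fin 4, j = i + (m : ℕ) ∧ ∀ t : Fin 4, t ≤ m → i + ((t : ℕ) : ZMod 4) ≠ k) := by
        decide
      rcases key i j k hki hkj with ⟨m, h1, h2⟩ | ⟨m, h1, h2⟩
      · exact Or.inl ⟨m, h1, fun t ht => h2 ⟨t, lt_of_le_of_lt ht m.2⟩ ht⟩
      · exact Or.inr ⟨m, h1, fun t ht => h2 ⟨t, lt_of_le_of_lt ht m.2⟩ ht⟩
    rcases cases with ⟨m, h1, h2⟩ | ⟨m, h1, h2⟩
    · exact down m i j h1 hi hj (fun t ht => one k _ (h2 t ht).symm hk)
    · exact (down m j i h1 hj hi (fun t ht => one k _ (h2 t ht).symm hk)).symm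
  · push Not at hex
    obtain ⟨m, hm⟩ : ∃ m : ℕ, i = j + m := by
      have key : ∀ i j : ZMod 4, ∃ m : Fin 4, i = j + (m : ℕ) := by decide
      obtain ⟨m, hm⟩ := key i j
      exact ⟨m, hm⟩
    exact down m i j hm hi hj (fun t _ => hex _)

/-- A set of regions no two of which meet at a crossing is non-separating. -/
theorem nonSeparating (hn : 0 < n) (hD : D.Reduced) (S : Finset D.Region)
    (hS : ∀ R ∈ S, ∀ R' ∈ S, D.Meet R R' → R = R') : D.NonSeparating S := by
  -- every crossing has a region outside of `S`
  have ex : ∀ c : Fin n, ∃ i, D.region (c, i) ∉ S := by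
    intro c
    by_contra h
    push Not at h
    exact hD c 0 1 (by decide) (hS _ (h 0) _ (h 1) ⟨c, 0, 1, rfl, rfl⟩)
  have key : ∀ c c' : Fin n,
      Relation.ReflTransGen (fun a b => ∃ i j, D.other (a, i) = (b, j)) c c' →
      ∀ (i i' : ZMod 4) (h : D.region (c, i) ∉ S) (h' : D.region (c', i') ∉ S),
      (D.dual.induce {R | R ∉ S}).Reachable ⟨D.region (c, i), h⟩ ⟨D.region (c', i'), h'⟩ := by
    intro c c' hcc
    induction hcc with
    | refl => intro i i' h h'; exact D.local_conn hD S hS c i i' h h'
    | @tail b e hab hbc ih =>
      intro i i' h h'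
      obtain ⟨k, l, hkl⟩ := hbc
      -- the two regions beside the strand from `(b, k)` to `(e, l)`
      have e1 : D.region (b, k) = D.region (e, l - 1) := by
        have := D.region_prev_other (b, k)
        rw [hkl] at this
        exact this.symm
      have e2 : D.region (b, k - 1) = D.region (e, l) := by
        rw [← D.region_other b k, hkl]
      by_cases hk : D.region (b, k) ∈ S
      · have h2 : D.region (b, k - 1) ∉ S := by
          intro h3
          exact hD b k (k - 1) (ne_pred k) (hS _ hk _ h3 ⟨b, k, k - 1, rfl, rfl⟩)
        have h4 : D.region (e, l) ∉ S := by rw [← e2]; exact h2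
        refine (ih i (k - 1) h h2).trans ?_
        have h5 := D.local_conn hD S hS e l i' h4 h'
        have h6 : (⟨D.region (b, k - 1), h2⟩ : {R | R ∉ S}) = ⟨D.region (e, l), h4⟩ :=
          Subtype.ext e2
        rw [h6]; exact h5
      · have h4 : D.region (e, l - 1) ∉ S := by rw [← e1]; exact hk
        refine (ih i k h hk).trans ?_
        have h5 := D.local_conn hD S hS e (l - 1) i' h4 h'
        have h6 : (⟨D.region (b, k), hk⟩ : {R | R ∉ S}) = ⟨D.region (e, l - 1), h4⟩ :=
          Subtype.ext e1
        rw [h6]; exact h5
  unfold NonSeparating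
  rw [SimpleGraph.connected_iff]
  constructor
  · rintro ⟨R, hR⟩ ⟨R', hR'⟩
    induction R using Quotient.inductionOn with
    | h d =>
    induction R' using Quotient.inductionOn with
    | h d' =>
    exact key d.1 d'.1 (D.connected _ _) d.2 d'.2 hR hR'
  · obtain ⟨i, hi⟩ := ex ⟨0, hn⟩
    exact ⟨⟨_, hi⟩⟩

end Projection

section Turan

open Finset

/-- A graph with `N` vertices and at most `6 (N - 2)` edges has an independent set with at least
`N / 13` vertices. -/
theorem exists_independent {V : Type} [Fintype V] [DecidableEq V] (H : SimpleGraph V)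
    [DecidableRel H.Adj] (n : ℕ) (hV : Fintype.card V = n + 2)
    (hE : H.edgeFinset.card ≤ 6 * n) :
    ∃ S : Finset V, (∀ u ∈ S, ∀ v ∈ S, ¬ H.Adj u v) ∧ n + 2 ≤ 13 * S.card := by
  by_contra hcon
  push Not at hcon
  set r := (n + 1) / 13 with hr
  have hfree : (Hᶜ).CliqueFree (r + 1) := by
    intro S hS
    have h1 := hcon S (by
      intro u hu v hv huv
      have hne : u ≠ v := huv.ne
      have := hS.isClique hu hv hne
      rw [SimpleGraph.compl_adj] at this
      exact this.2 huv)
    rw [hS.card_eq] at h1
    omega
  have hr0 : 0 < r := by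
    by_contra h0
    have h0' : r = 0 := by omega
    have : Nonempty V := Fintype.card_pos_iff.mp (by omega)
    obtain ⟨v⟩ := (inferInstance : Nonempty V)
    have h1 := hcon {v} (by
      intro u hu w hw
      rw [Finset.mem_singleton] at hu hw
      subst hu; subst hw
      exact H.loopless.irrefl _)
    rw [Finset.card_singleton] at h1
    omega
  have hT : (Hᶜ).edgeFinset.card ≤ (SimpleGraph.turanGraph (Fintype.card V) r).edgeFinset.card := by
    obtain ⟨M, _, maxM⟩ := SimpleGraph.exists_isTuranMaximal (V := V) hr0
    have h1 := maxM.2 hfree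
    rw [((SimpleGraph.isTuranMaximal_iff_nonempty_iso_turanGraph hr0).mp maxM).some.card_edgeFinset_eq]
      at h1
    convert h1
  have hT2 := SimpleGraph.mul_card_edgeFinset_turanGraph_le (n := Fintype.card V) (r := r)
  have hsum : H.edgeFinset.card + (Hᶜ).edgeFinset.card = (Fintype.card V).choose 2 := by
    rw [← SimpleGraph.card_edgeFinset_top_eq_card_choose_two, ← Finset.card_union_of_disjoint]
    · congr 1
      ext e
      induction e using Sym2.inductionOn with
      | hf x y =>
      simp only [Finset.mem_union, SimpleGraph.mem_edgeFinset, SimpleGraph.mem_edgeSet,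
        SimpleGraph.compl_adj, SimpleGraph.top_adj]
      constructor
      · rintro (h | h)
        · exact h.ne
        · exact h.1
      · intro h
        by_cases h' : H.Adj x y
        · exact Or.inl h'
        · exact Or.inr ⟨h, h'⟩
    · rw [Finset.disjoint_left]
      intro e
      induction e using Sym2.inductionOn with
      | hf x y =>
      simp only [SimpleGraph.mem_edgeFinset, SimpleGraph.mem_edgeSet, SimpleGraph.compl_adj]
      intro h h'
      exact h'.2 h
  rw [hV] at hT hT2 hsum
  have hch : (n + 2).choose 2 * 2 = (n + 2) * (n + 1) := by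
    rw [Nat.choose_two_right]
    have := Nat.even_mul_pred_self (n + 2)
    rw [Nat.div_mul_cancel this.two_dvd]
    simp
  have hrn : 13 * r ≤ n + 1 := by omega
  obtain ⟨s, hs⟩ : ∃ s, r = s + 1 := ⟨r - 1, by omega⟩
  rw [hs] at hT2 hrn
  set T := (SimpleGraph.turanGraph (n + 2) r).edgeFinset.card with hTdef
  have hT3 : 2 * (s + 1) * T ≤ s * (n + 2) ^ 2 := by
    have : T = (SimpleGraph.turanGraph (n + 2) (s + 1)).edgeFinset.card :=
      congrArg (fun q => (SimpleGraph.turanGraph (n + 2) q).edgeFinset.card) hs
    rw [this]
    simpa using hT2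
  have hc : (n + 2) * (n + 1) ≤ 12 * n + 2 * T := by
    rw [← hch]; omega
  have h1 : (s + 1) * ((n + 2) * (n + 1)) ≤ (s + 1) * (12 * n) + s * (n + 2) ^ 2 := by
    calc (s + 1) * ((n + 2) * (n + 1)) ≤ (s + 1) * (12 * n + 2 * T) := Nat.mul_le_mul_left _ hc
      _ = (s + 1) * (12 * n) + 2 * (s + 1) * T := by ring
      _ ≤ _ := Nat.add_le_add_left hT3 _
  have h2 : 13 * (s + 1) * (n + 2) ≤ (n + 1) * (n + 2) := Nat.mul_le_mul_right _ hrn
  nlinarith
end Turan

/-- **Large non-separating independent sets in the duals of reduced link diagrams.** There is a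
constant `δ > 0` (namely `1 / 13`) such that the dual graph of every reduced non-split link diagram
with `n` crossings contains a non-separating independent set with at least `δ n` vertices. The set
can be chosen so that no two of its regions meet at a crossing. -/
theorem result : ∃ δ : ℝ, 0 < δ ∧ ∀ (n : ℕ) (D : Projection n), D.Reduced →
    ∃ S : Finset D.Region, D.Independent S ∧ D.NonSeparating S ∧ δ * n ≤ S.card := by
  refine ⟨1 / 13, by norm_num, ?_⟩
  intro n D hD
  classical
  have : Finite D.Region := inferInstanceAs (Finite (Quotient _))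
  let _ : Fintype D.Region := Fintype.ofFinite _
  have hcard : Fintype.card D.Region = n + 2 := by
    rw [← Nat.card_eq_fintype_card]; exact D.plane
  have hn : 0 < n := by
    rcases Nat.eq_zero_or_pos n with h | h
    · subst h
      have : IsEmpty D.Region := ⟨fun R => Quotient.inductionOn R fun d => d.1.elim0⟩
      rw [Fintype.card_eq_zero] at hcard
      omega
    · exact h
  -- the graph of the pairs of regions that meet at a crossing
  let H : SimpleGraph D.Region :=
    { Adj := fun R R' => R ≠ R' ∧ D.Meet R R'
      symm := ⟨by
        rintro R R' ⟨h, c, i, j, h1, h2⟩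
        exact ⟨h.symm, c, j, i, h2, h1⟩⟩
      loopless := ⟨fun R h => h.1 rfl⟩ }
  have hE : H.edgeFinset.card ≤ 6 * n := by
    have hsub : H.edgeFinset ⊆ ((Finset.univ : Finset (Fin n × {p : ZMod 4 × ZMod 4 // p.1.val < p.2.val})).image
        (fun x => s(D.region (x.1, x.2.1.1), D.region (x.1, x.2.1.2)))) := by
      intro e
      induction e using Sym2.inductionOn with
      | hf R R' =>
      rw [SimpleGraph.mem_edgeFinset, SimpleGraph.mem_edgeSet]
      rintro ⟨hne, c, i, j, rfl, rfl⟩
      rw [Finset.mem_image]
      have hij : i ≠ j := by rintro rfl; exact hne rfl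
      rcases lt_or_gt_of_ne (fun h => hij (ZMod.val_injective 4 h)) with h | h
      · exact ⟨(c, ⟨(i, j), h⟩), Finset.mem_univ _, rfl⟩
      · exact ⟨(c, ⟨(j, i), h⟩), Finset.mem_univ _, Sym2.eq_swap⟩
    refine (Finset.card_le_card hsub).trans (Finset.card_image_le.trans ?_)
    rw [Finset.card_univ, Fintype.card_prod, Fintype.card_fin]
    have : Fintype.card {p : ZMod 4 × ZMod 4 // p.1.val < p.2.val} = 6 := by decide
    rw [this]
    omega
  obtain ⟨S, hS1, hS2⟩ := exists_independent H n hcard hE
  have hS : ∀ R ∈ S, ∀ R' ∈ S, D.Meet R R' → R = R' := by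
    intro R hR R' hR' hm
    by_contra hne
    exact hS1 R hR R' hR' ⟨hne, hm⟩
  refine ⟨S, ?_, D.nonSeparating hn hD S hS, ?_⟩
  · rintro R hR R' hR' ⟨hne, d, h1, h2⟩
    apply hne
    apply hS R hR R' hR'
    refine ⟨d.1, d.2, d.2 - 1, h1, ?_⟩
    rw [← h2, ← D.region_other d.1 d.2]
  · have h3 : ((n : ℝ) + 2) ≤ 13 * (S.card : ℝ) := by exact_mod_cast hS2
    linarith

end Pool.Agent.Results.MP_1d20a2_co.LinearNonSeparating
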